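import Pool.Agent.R827.CL5
import Pool.Agent.R827.CL6

/-!
# MP_3bc7a7_gt, Q1: normal first-countable weakly Lindelöf spaces and CH

Under the continuum hypothesis there is a normal `T₁` first-countable weakly Lindelöf space which is
not cellular-Lindelöf.
-/

set_option autoImplicit false

open Set Topology Cardinal

namespace Pool.Agent.Results.MP_3bc7a7_gt.CounterexampleUnderCH

/-- Every open cover has a countable subfamily with a dense union. -/
def WeaklyLindelof (X : Type) [TopologicalSpace X] : Prop :=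
  ∀ 𝒰 : Set (Set X), (∀ U ∈ 𝒰, IsOpen U) → ⋃₀ 𝒰 = Set.univ →
    ∃ 𝒱 ⊆ 𝒰, 𝒱.Countable ∧ Dense (⋃₀ 𝒱)

/-- For every family of pairwise disjoint nonempty open sets there is a Lindelöf subset which meets
all of them. -/
def CellularLindelof (X : Type) [TopologicalSpace X] : Prop :=
  ∀ 𝒰 : Set (Set X), (∀ U ∈ 𝒰, IsOpen U ∧ U.Nonempty) → 𝒰.PairwiseDisjoint id →
    ∃ L : Set X, IsLindelof L ∧ ∀ U ∈ 𝒰, (L ∩ U).Nonempty

open Pool.Agent.R827.CL in
/-- Under CH there is a normal `T₁` first-countable weakly Lindelöf space which is not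
cellular-Lindelöf. -/
theorem result (CH : (𝔠 : Cardinal.{0}) = ℵ₁) :
    ∃ (X : Type) (_ : TopologicalSpace X), NormalSpace X ∧ T1Space X ∧ FirstCountableTopology X ∧
      WeaklyLindelof X ∧ ¬ CellularLindelof X := by
  classical
  obtain ⟨p, e, j, hG⟩ := exists_good CH
  have hcard : #Om ≤ #(ℕ → Bool) := by
    have h1 : #(ℕ → Bool) = 𝔠 := by simp
    rw [h1, CH]
    simp
  obtain ⟨c⟩ := Cardinal.le_def _ _ |>.1 hcard
  refine ⟨Z hG × Dup, inferInstance, ?_, inferInstance, inferInstance, ?_, ?_⟩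
  · exact normal_prod (fun ι _ W hW hcov => exists_locConst hG W hW hcov) (exists_acc hG)
  · exact weaklyLindelof_prod (weaklyLindelof_Z hG)
  · intro hcon
    let U : Om → Set (Z hG × Dup) := fun δ =>
      {z : Z hG | δ < (z : K × List ℕ).1.1} ×ˢ {q : Dup | q.2 = true ∧ q.1 ∈ ({c δ} : Set (ℕ → Bool))}
    obtain ⟨L, hL, hLU⟩ := hcon (range U) (by
      rintro _ ⟨δ, rfl⟩
      refine ⟨(isOpen_late hG δ).prod (isOpen_iso _), ?_⟩
      obtain ⟨δ', hδ'⟩ := exists_ub {δ} (countable_singleton δ)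
      exact ⟨((((δ', 0), []) : K × List ℕ), (c δ, true)), hδ' δ rfl, rfl, rfl⟩)
      (by
        rintro _ ⟨δ, rfl⟩ _ ⟨δ', rfl⟩ hne
        refine disjoint_left.2 ?_
        rintro ⟨z, q⟩ h1 h2
        apply hne
        have h3 : q.1 = c δ := h1.2.2
        have h4 : q.1 = c δ' := h2.2.2
        rw [c.injective (h3.symm.trans h4)])
    obtain ⟨δ, hδ⟩ := lindelof_bounded hG (Prod.fst '' L) (hL.image continuous_fst)
    obtain ⟨⟨z, q⟩, hz1, hz2⟩ := hLU (U δ) ⟨δ, rfl⟩
    have h1 := hδ z ⟨(z, q), hz1, rfl⟩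
    exact absurd hz2.1 (not_lt.2 h1)

end Pool.Agent.Results.MP_3bc7a7_gt.CounterexampleUnderCH
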